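import Pool.Agent.Lib.MP_cb5b52_nt.Proof

open Filter Topology Pool.Agent.Lib.MP_cb5b52_nt

/-- A sequence with gcd 1 and infinitely many prime divisors whose odd densities do not tend to 1/2. -/
theorem Pool.Agent.Results.MP_cb5b52_nt.Counterexample.result :
    ∃ a : ℕ → ℕ, StrictMono a ∧ (∀ i, 0 < a i) ∧
      (∀ g : ℕ, (∀ i, g ∣ a i) → g = 1) ∧ {p : ℕ | p.Prime ∧ ∃ i, p ∣ a i}.Infinite ∧
      ∃ δ : ℕ → ℝ, (∀ k, 1 ≤ k → Tendsto (oddRatio a k) atTop (𝓝 (δ k))) ∧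
        (∀ k, 3 ≤ k → δ k ≤ 1 / 4) ∧ ¬ Tendsto δ atTop (𝓝 (1 / 2)) :=
  main
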