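import Pool.Agent.Lib.MP_cb5b52_nt.Robust

open Filter Topology Pool.Agent.Lib.MP_cb5b52_nt

/-- A strictly increasing sequence with infinitely many prime terms, all of whose tails have
gcd 1, whose odd densities come arbitrarily close to 0 infinitely often. -/
theorem Pool.Agent.Results.MP_cb5b52_nt.PrimeTerms.result :
    ∃ a : ℕ → ℕ, StrictMono a ∧ (∀ i, 0 < a i) ∧
      {p : ℕ | p.Prime ∧ ∃ i, a i = p}.Infinite ∧
      (∀ m g : ℕ, (∀ i, m ≤ i → g ∣ a i) → g = 1) ∧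
      {p : ℕ | p.Prime ∧ ∃ i, p ∣ a i}.Infinite ∧
      ∃ δ : ℕ → ℝ, (∀ k, 1 ≤ k → Tendsto (oddRatio a k) atTop (𝓝 (δ k))) ∧
        (∀ ε : ℝ, 0 < ε → ∀ K : ℕ, ∃ k, K ≤ k ∧ δ k < ε) ∧ ¬ Tendsto δ atTop (𝓝 (1 / 2)) :=
  robust
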